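import Pool.Agent.P.MP_6c0067_an.Main

/-! A simply connected domain supports the analytic Poincaré inequality if and only if it is the
whole plane, or it has finite area and satisfies the front condition. -/

open Set MeasureTheory

namespace Pool.Agent.Results.MP_6c0067_an.FrontCriterion

open Pool.Agent.P.MP_6c0067_an

theorem result (D : Set ℂ) (ho : IsOpen D) (hs : IsSimplyConnected D) (h0 : (0 : ℂ) ∈ D) :
    Poincare D ↔ D = univ ∨ (volume D < ⊤ ∧ FrontCondition D) :=
  main D ho hs h0

end Pool.Agent.Results.MP_6c0067_an.FrontCriterion
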